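import Pool.Agent.Helper1.RK.StA

/-!
# Project RK (MP_de00bc_nt), module DGF: the fibre of a rational function
-/

set_option autoImplicit false

namespace Pool.Agent.Helper30.RK

open Pool.Agent.Helper1.RK Polynomial

variable {L : Type} [Field L]

theorem aeval_X (Q : L[X]) : aeval (RatFunc.X : RatFunc L) Q = algebraMap L[X] (RatFunc L) Q := by
  have h : aeval (RatFunc.X : RatFunc L) = IsScalarTower.toAlgHom L L[X] (RatFunc L) := by
    apply Polynomial.algHom_ext
    rw [Polynomial.aeval_X, IsScalarTower.toAlgHom_apply, RatFunc.algebraMap_X]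
  rw [h, IsScalarTower.toAlgHom_apply]

theorem iota_poly (ι : RatFunc L ≃ₐ[L] RatFunc L) (hι : ι RatFunc.X = RatFunc.X⁻¹) (P : L[X]) :
    ι (algebraMap L[X] (RatFunc L) P) = aeval (RatFunc.X⁻¹ : RatFunc L) P := by
  rw [← aeval_X P, ← hι]
  exact (Polynomial.aeval_algHom_apply ι.toAlgHom RatFunc.X P).symm

/-- `ι P = X ^ (-m) * reflect m P` -/
theorem iota_reflect (ι : RatFunc L ≃ₐ[L] RatFunc L) (hι : ι RatFunc.X = RatFunc.X⁻¹) (P : L[X])
    (m : ℕ) (hm : P.natDegree ≤ m) :
    ι (algebraMap L[X] (RatFunc L) P) =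
      algebraMap L[X] (RatFunc L) (reflect m P) * (RatFunc.X⁻¹) ^ m := by
  have hX : (RatFunc.X⁻¹ : RatFunc L) ≠ 0 := inv_ne_zero RatFunc.X_ne_zero
  let _i : Invertible (RatFunc.X⁻¹ : RatFunc L) := invertibleOfNonzero hX
  have h := Polynomial.eval₂_reflect_mul_pow (algebraMap L (RatFunc L)) (RatFunc.X⁻¹ : RatFunc L)
    m P hm
  rw [invOf_eq_inv, inv_inv, ← aeval_def, ← aeval_def, aeval_X] at h
  rw [iota_poly ι hι, h]

theorem pDGF (h1 : StORD) (h2 : StREG) : StDGF := by
  classical
  intro L _ _ ι hι s τ hs hinf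
  obtain ⟨o1, -⟩ := h1 L 0
  obtain ⟨r1, -⟩ := h2 L 0
  obtain ⟨a, ha⟩ : ∃ a, a = s.num := ⟨_, rfl⟩
  obtain ⟨b, hb⟩ : ∃ b, b = s.denom := ⟨_, rfl⟩
  have hb0 : b ≠ 0 := hb ▸ s.denom_ne_zero
  have hbK : algebraMap L[X] (RatFunc L) b ≠ 0 := RatFunc.algebraMap_ne_zero hb0
  have hsab : s = algebraMap L[X] (RatFunc L) a / algebraMap L[X] (RatFunc L) b := by
    rw [ha, hb, RatFunc.num_div_denom]
  have hcop : IsCoprime a b := by rw [ha, hb]; exact s.isCoprime_num_denom
  obtain ⟨N, hN⟩ : ∃ N, N = a - C τ * b := ⟨_, rfl⟩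
  have hsN : s - RatFunc.C τ = algebraMap L[X] (RatFunc L) N / algebraMap L[X] (RatFunc L) b := by
    rw [hN, hsab, map_sub, map_mul, RatFunc.algebraMap_C, sub_div, mul_div_assoc, div_self hbK,
      mul_one]
  have hN0 : N ≠ 0 := by
    intro h
    apply hs
    refine ⟨τ, ?_⟩
    rw [h, map_zero, zero_div, sub_eq_zero] at hsN
    exact hsN
  have ha0 : a ≠ 0 := by
    intro h
    apply hs
    refine ⟨0, ?_⟩
    rw [hsab, h, map_zero, zero_div, map_zero]
  have hbne : ∀ p, N.eval p = 0 → b.eval p ≠ 0 := by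
    intro p hp hbp
    obtain ⟨u, v, huv⟩ := hcop
    have h3 : a.eval p = 0 := by
      rw [hN, eval_sub, eval_mul, hbp, mul_zero, sub_zero] at hp
      exact hp
    have h4 := congrArg (eval p) huv
    rw [eval_add, eval_mul, eval_mul, h3, hbp, mul_zero, mul_zero, add_zero, eval_one] at h4
    exact zero_ne_one h4
  obtain ⟨m, hm⟩ : ∃ m, m = dg s := ⟨_, rfl⟩
  have hma : a.natDegree ≤ m := by rw [hm, ha]; exact le_max_left _ _
  have hmb : b.natDegree ≤ m := by rw [hm, hb]; exact le_max_right _ _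
  have hdeg : N.natDegree = m := by
    have hle : N.natDegree ≤ m := by
      rw [hN]
      refine (natDegree_sub_le _ _).trans (max_le hma ?_)
      exact (natDegree_C_mul_le _ _).trans hmb
    by_contra hne
    have hlt : N.natDegree < m := lt_of_le_of_ne hle hne
    have hc : a.coeff m = τ * b.coeff m := by
      have h3 := coeff_eq_zero_of_natDegree_lt hlt
      rw [hN, coeff_sub, coeff_C_mul, sub_eq_zero] at h3
      exact h3
    have hbm : b.coeff m ≠ 0 := by
      intro h3
      rw [h3, mul_zero] at hc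
      have h4 : m = a.natDegree ∨ m = b.natDegree := by
        rw [hm, ha, hb]
        exact max_choice _ _
      rcases h4 with h4 | h4
      · rw [h4] at hc
        exact ha0 (leadingCoeff_eq_zero.1 hc)
      · rw [h4] at h3
        exact hb0 (leadingCoeff_eq_zero.1 h3)
    apply hinf
    have h5 : ι s = algebraMap L[X] (RatFunc L) (reflect m a) /
        algebraMap L[X] (RatFunc L) (reflect m b) := by
      rw [hsab, map_div₀, iota_reflect ι hι a m hma, iota_reflect ι hι b m hmb]
      exact mul_div_mul_right _ _ (pow_ne_zero _ (inv_ne_zero RatFunc.X_ne_zero))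
    have h6 : ∀ P : L[X], (reflect m P).eval 0 = P.coeff m := by
      intro P
      rw [← coeff_zero_eq_eval_zero, coeff_reflect, revAt_le (Nat.zero_le m), Nat.sub_zero]
    have h7 := r1 (reflect m a) (reflect m b) (by rw [h6]; exact hbm)
    rw [← h5, h6, h6, hc, mul_div_assoc, div_self hbm, mul_one] at h7
    exact h7
  refine ⟨N.roots.toFinset, ?_, ?_⟩
  · intro p
    rw [Multiset.mem_toFinset, mem_roots hN0, IsRoot.def]
    unfold Reg ev
    rw [← hb, ← ha]
    constructor
    · intro hp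
      refine ⟨hbne p hp, ?_⟩
      rw [div_eq_iff (hbne p hp)]
      rw [hN, eval_sub, eval_mul, eval_C, sub_eq_zero] at hp
      exact hp
    · rintro ⟨h3, h4⟩
      rw [div_eq_iff h3] at h4
      rw [hN, eval_sub, eval_mul, eval_C, h4, sub_self]
  · have h3 : ∀ p ∈ N.roots.toFinset, ord p (s - RatFunc.C τ) = (N.roots.count p : ℤ) := by
      intro p hp
      rw [Multiset.mem_toFinset, mem_roots hN0, IsRoot.def] at hp
      rw [hsN, (h1 L p).1 N b hN0 hb0, count_roots]
      have h4 : b.rootMultiplicity p = 0 := rootMultiplicity_eq_zero (hbne p hp)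
      rw [h4, Nat.cast_zero, sub_zero]
    rw [Finset.sum_congr rfl h3, ← Nat.cast_sum, Multiset.toFinset_sum_count_eq, ← hm, ← hdeg]
    congr 1
    exact (splits_iff_card_roots.1 (IsAlgClosed.splits N))

end Pool.Agent.Helper30.RK
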